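import Pool.Agent.H695R3.LP.Loc
import Pool.Agent.H695R3.LP.Gordon
import Pool.Agent.H695R3.LP.Spec

/-!
# A limit-periodic potential whose spectral type depends on the coupling constant

There is a limit-periodic `V : ℤ → ℝ` such that `Δ + λ V` has no pure point spectral component for
`0 < λ ≤ 1`, while it has an exponentially decaying eigenfunction for all `λ ≥ 2 e⁷`.

`V(n) = - w(n)` has wells at the multiples of `p_k`; the two wells next to `0` at each scale `p_k`
are detuned from `0` only by `100^{-p_k}`, the other ones by `2^{-k}`. At small coupling Gordon's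
lemma applies at every scale; at large coupling the positive ground state is localised at `0`.
-/

set_option autoImplicit false

open MeasureTheory Filter Topology

namespace Pool.Agent.Results.MP_c5cda2_mp.CouplingTransition

/-- The Hilbert space `ℓ²(ℤ)` of square summable complex sequences. -/
abbrev L2Z : Type := lp (fun _ : ℤ => ℂ) 2

/-- `V` is periodic: `V (n + p) = V n` for some `p ≥ 1` and all `n`. -/
def IsPeriodic (V : ℤ → ℝ) : Prop := ∃ p : ℕ, 1 ≤ p ∧ ∀ n, V (n + p) = V n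

/-- `V` is limit-periodic: a uniform limit of periodic sequences. -/
def IsLimitPeriodic (V : ℤ → ℝ) : Prop :=
  ∀ ε : ℝ, 0 < ε → ∃ W : ℤ → ℝ, IsPeriodic W ∧ ∀ n, |V n - W n| ≤ ε

/-- `H = Δ + V` on `ℓ²(ℤ)`. -/
def IsSchrodinger (V : ℤ → ℝ) (H : L2Z →L[ℂ] L2Z) : Prop :=
  ∀ (ψ : L2Z) (n : ℤ), H ψ n = ψ (n - 1) + ψ (n + 1) + (V n : ℂ) * ψ n

/-- `μ` is the spectral measure of the vector `ψ` for the self-adjoint operator `H`: a finite
measure with `⟨ψ, f(H) ψ⟩ = ∫ f dμ` for all continuous `f`. -/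
def IsSpectralMeasure {X : Type} [NormedAddCommGroup X] [InnerProductSpace ℂ X] [CompleteSpace X]
    (H : X →L[ℂ] X) (ψ : X) (μ : Measure ℝ) : Prop :=
  IsFiniteMeasure μ ∧
    ∀ f : ℝ → ℝ, Continuous f → inner ℂ ψ ((cfc f H) ψ) = ((∫ E, f E ∂μ : ℝ) : ℂ)

/-- The three labels of the Lebesgue decomposition. -/
inductive SpecLabel
  | ac
  | sc
  | pp

/-- The measures with a given label: absolutely continuous with respect to Lebesgue measure;
singular without atoms; carried by a countable set. -/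
def SpecLabel.Is : SpecLabel → Measure ℝ → Prop
  | .ac, μ => μ ≪ volume
  | .sc, μ => μ ⟂ₘ volume ∧ ∀ x : ℝ, μ {x} = 0
  | .pp, μ => ∃ N : Set ℝ, N.Countable ∧ μ Nᶜ = 0

/-- The spectral subspace `H_t`, `t ∈ {ac, sc, pp}`: the vectors whose spectral measure has the
label `t`. -/
def subspaceOf (t : SpecLabel) (H : L2Z →L[ℂ] L2Z) : Set L2Z :=
  {ψ | ∃ μ : Measure ℝ, IsSpectralMeasure H ψ μ ∧ t.Is μ}

/-- The spectral type of `H`: the set of labels `t` with `H_t ≠ {0}`. -/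
def spectralType (H : L2Z →L[ℂ] L2Z) : Set SpecLabel := {t | ∃ ψ ∈ subspaceOf t H, ψ ≠ 0}

open Pool.Agent.H695R3.LP Pool.Agent.Helper434.PSCplx

theorem isSelfAdjoint_of {V : ℤ → ℝ} {C : ℝ} (hV : ∀ n, |V n| ≤ C) {H : L2Z →L[ℂ] L2Z}
    (hH : IsSchrodinger V H) : IsSelfAdjoint H := by
  obtain ⟨H', h1, h2⟩ := exists_H V hV
  have : H = H' := by
    ext ψ n
    rw [hH, h1]
    ring
  rw [this]; exact h2

theorem limitPeriodic : IsLimitPeriodic fun n => -w n := by
  classical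
  intro ε hε
  obtain ⟨k, hk⟩ := exists_pow_lt_of_lt_one hε (show (1 / 2 : ℝ) < 1 by norm_num)
  refine ⟨fun n => if ((p k : ℕ) : ℤ) ∣ n then 0 else -w n, ⟨p k, p_pos k, fun n => ?_⟩,
    fun n => ?_⟩
  · by_cases h : ((p k : ℕ) : ℤ) ∣ n
    · simp only
      rw [if_pos h, if_pos (h.add dvd_rfl)]
    · have h2 : ¬ ((p k : ℕ) : ℤ) ∣ n + p k := fun h3 => h ((dvd_add_left dvd_rfl).1 h3)
      simp only
      rw [if_neg h, if_neg h2, w_add h dvd_rfl]
  · by_cases h : ((p k : ℕ) : ℤ) ∣ n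
    · simp only [if_pos h]
      rw [sub_zero, abs_neg, abs_of_nonneg (w_nonneg n)]
      exact (w_le_of_dvd h).trans hk.le
    · simp only [if_neg h]
      rw [sub_self, abs_zero]
      exact hε.le

theorem abs_pot (lam : ℝ) (n : ℤ) : |lam * -w n| ≤ |lam| := by
  rw [abs_mul, abs_neg, abs_of_nonneg (w_nonneg n)]
  exact mul_le_of_le_one_right (abs_nonneg _) (w_le_one n)

/-- No eigenvectors for `0 < λ ≤ 1`. -/
theorem no_eigenvector {lam : ℝ} (h0 : 0 < lam) (h1 : lam ≤ 1) {H : L2Z →L[ℂ] L2Z}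
    (hH : IsSchrodinger (fun n => lam * -w n) H) {x : ℝ} {φ : L2Z} (hφ : H φ = (x : ℂ) • φ) :
    φ = 0 := by
  by_contra hne
  have heq : ∀ n : ℤ, φ (n - 1) + φ (n + 1) + ((lam * -w n : ℝ) : ℂ) * φ n = (x : ℂ) * φ n := by
    intro n
    rw [← hH φ n, hφ]
    rfl
  -- the bound on the energy
  have hx : |x| ≤ 3 := by
    have e1 : H φ = SS (-1) φ + SS 1 φ + MM (fun n => lam * -w n) (abs_pot lam) φ := by
      ext n
      rw [hH]
      rfl
    have n1 : ‖SS (-1) φ‖ ≤ 1 * ‖φ‖ :=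
      (SS (-1)).le_of_opNorm_le (LinearMap.mkContinuous_norm_le _ zero_le_one _) φ
    have n2 : ‖SS 1 φ‖ ≤ 1 * ‖φ‖ :=
      (SS 1).le_of_opNorm_le (LinearMap.mkContinuous_norm_le _ zero_le_one _) φ
    have n3 : ‖MM (fun n => lam * -w n) (abs_pot lam) φ‖ ≤ |lam| * ‖φ‖ :=
      (MM _ (abs_pot lam)).le_of_opNorm_le
        (LinearMap.mkContinuous_norm_le _ (abs_nonneg lam) _) φ
    have n4 : ‖H φ‖ = |x| * ‖φ‖ := by
      rw [hφ, norm_smul, Complex.norm_real, Real.norm_eq_abs]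
    have n5 : ‖H φ‖ ≤ 3 * ‖φ‖ := by
      rw [e1]
      refine (norm_add_le _ _).trans ?_
      have := norm_add_le (SS (-1) φ) (SS 1 φ)
      have hl : |lam| ≤ 1 := by rw [abs_of_pos h0]; exact h1
      have := mul_le_mul_of_nonneg_right hl (norm_nonneg φ)
      linarith
    rw [n4] at n5
    exact le_of_mul_le_mul_right n5 (norm_pos_iff.2 hne)
  have hX : ∀ n, |x + lam * w n| ≤ 4 := by
    intro n
    have h2 := w_nonneg n
    have h3 := w_le_one n
    refine (abs_add_le _ _).trans ?_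
    rw [abs_of_nonneg (mul_nonneg h0.le h2)]
    nlinarith
  have hrep : ∀ N : ℕ, ∃ q : ℕ, N ≤ q ∧ 1 ≤ q ∧
      ∀ i : ℤ, -(q : ℤ) ≤ i → i < q →
        |(x + lam * w (i + q)) - (x + lam * w i)| ≤ (1 / 100) ^ q := by
    intro N
    refine ⟨p N, (lt_p N).le, p_pos N, fun i hi1 hi2 => ?_⟩
    have e1 : (x + lam * w (i + p N)) - (x + lam * w i) = lam * (w (i + p N) - w i) := by ring
    rw [e1, abs_mul, abs_of_pos h0]
    have h2 : |w (i + p N) - w i| ≤ (1 / 100) ^ p N := by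
      by_cases hd : ((p N : ℕ) : ℤ) ∣ i
      · obtain ⟨j, rfl⟩ := hd
        have hp : (0 : ℤ) < p N := by exact_mod_cast p_pos N
        have hj1 : j < 1 := by
          by_contra hcon
          rw [not_lt] at hcon
          nlinarith
        have hj2 : -1 ≤ j := by
          by_contra hcon
          rw [not_le] at hcon
          nlinarith
        have hj : j = 0 ∨ j = -1 := by omega
        rcases hj with rfl | rfl
        · rw [mul_zero, zero_add, w_p, w_zero, sub_zero, abs_of_nonneg (by positivity)]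
        · rw [mul_neg_one, neg_add_cancel, w_zero, w_neg_p, zero_sub, abs_neg,
            abs_of_nonneg (by positivity)]
      · rw [w_add hd dvd_rfl, sub_self, abs_zero]
        positivity
    have h3 : (0 : ℝ) ≤ (1 / 100) ^ p N := by positivity
    calc lam * |w (i + p N) - w i| ≤ 1 * (1 / 100) ^ p N :=
          mul_le_mul h1 h2 (abs_nonneg _) zero_le_one
      _ = _ := one_mul _
  have hsum := summ φ
  have hlim : Tendsto (fun n => ‖φ n‖) cofinite (𝓝 0) := by
    have h2 := hsum.tendsto_cofinite_zero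
    have h3 : (2 : ENNReal).toReal = ((2 : ℕ) : ℝ) := by norm_num
    simp only [h3, Real.rpow_natCast] at h2
    have h4 := h2.sqrt
    rw [Real.sqrt_zero] at h4
    refine h4.congr fun n => Real.sqrt_sq (norm_nonneg _)
  have hre : (fun n => (φ n).re) = 0 := by
    refine gordon (fun n => x + lam * w n) hX _ (fun n => ?_) ?_ hrep
    · have h2 := congrArg Complex.re (heq n)
      simp only [Complex.add_re, Complex.re_ofReal_mul] at h2
      linarith
    · exact squeeze_zero_norm (fun n => Complex.abs_re_le_norm (φ n)) hlim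
  have him : (fun n => (φ n).im) = 0 := by
    refine gordon (fun n => x + lam * w n) hX _ (fun n => ?_) ?_ hrep
    · have h2 := congrArg Complex.im (heq n)
      simp only [Complex.add_im, Complex.im_ofReal_mul] at h2
      linarith
    · exact squeeze_zero_norm (fun n => Complex.abs_im_le_norm (φ n)) hlim
  apply hne
  ext n
  exact Complex.ext (congrFun hre n) (congrFun him n)

/-- The pure point part vanishes for `0 < λ ≤ 1`. -/
theorem small_coupling {lam : ℝ} (h0 : 0 < lam) (h1 : lam ≤ 1) {H : L2Z →L[ℂ] L2Z}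
    (hH : IsSchrodinger (fun n => lam * -w n) H) : SpecLabel.pp ∉ spectralType H := by
  rintro ⟨ψ, ⟨μ, ⟨hfin, hμ⟩, N, hN, hNμ⟩, hψ⟩
  have hsa := isSelfAdjoint_of (abs_pot lam) hH
  have hno : ∀ x : ℝ, μ {x} = 0 := by
    intro x
    by_contra hx
    obtain ⟨φ, hφ0, hφ⟩ := exists_eigenvector hsa hμ hx
    exact hφ0 (no_eigenvector h0 h1 hH hφ)
  have hN0 : μ N = 0 := by
    have : N = ⋃ x ∈ N, {x} := by simp
    rw [this]
    exact (measure_biUnion_null_iff hN).2 fun x _ => hno x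
  have hμ0 : μ = 0 := by
    rw [← Measure.measure_univ_eq_zero, ← Set.union_compl_self N]
    exact measure_union_null hN0 hNμ
  exact hψ (eq_zero_of_measure hsa hμ hμ0)

/-- An exponentially decaying eigenfunction for `λ ≥ 2 e⁷`. -/
theorem eigenvector {lam : ℝ} (hlam : 2 * Real.exp 7 ≤ lam) {H : L2Z →L[ℂ] L2Z}
    (hH : IsSchrodinger (fun n => lam * -w n) H) :
    ∃ (E : ℝ) (φ : L2Z), φ ≠ 0 ∧ H φ = (E : ℂ) • φ ∧ ∀ n : ℤ, ‖φ n‖ ≤ (1 / 2) ^ n.natAbs := by
  obtain ⟨E, u, hu, h0, heq⟩ := localized hlam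
  have hmem : Memℓp (fun n => ((u n : ℝ) : ℂ)) 2 := by
    apply memℓp_gen
    have h3 : (2 : ENNReal).toReal = ((2 : ℕ) : ℝ) := by norm_num
    simp only [h3, Real.rpow_natCast]
    have hs : Summable fun n : ℤ => (1 / 4 : ℝ) ^ n.natAbs := by
      apply Summable.of_nat_of_neg
      · simpa using summable_geometric_of_lt_one (by norm_num) (by norm_num : (1 / 4 : ℝ) < 1)
      · simpa using summable_geometric_of_lt_one (by norm_num) (by norm_num : (1 / 4 : ℝ) < 1)
    refine Summable.of_nonneg_of_le (fun n => by positivity) (fun n => ?_) hs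
    rw [Complex.norm_real, Real.norm_eq_abs, abs_of_nonneg (hu n).1]
    calc u n ^ 2 ≤ ((1 / 2) ^ n.natAbs) ^ 2 := pow_le_pow_left₀ (hu n).1 (hu n).2 2
      _ = (1 / 4) ^ n.natAbs := by rw [← pow_mul, mul_comm, pow_mul]; norm_num
  refine ⟨E, ⟨_, hmem⟩, ?_, ?_, ?_⟩
  · intro h
    have h1 := congrArg (fun ψ : L2Z => ψ 0) h
    simp only at h1
    change ((u 0 : ℝ) : ℂ) = 0 at h1
    rw [h0] at h1
    norm_num at h1
  · ext n
    rw [hH]
    change ((u (n - 1) : ℝ) : ℂ) + ((u (n + 1) : ℝ) : ℂ) + ((lam * -w n : ℝ) : ℂ) * ((u n : ℝ) : ℂ) =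
      (E : ℂ) * ((u n : ℝ) : ℂ)
    have := heq n
    rw [← Complex.ofReal_mul, ← Complex.ofReal_mul, ← Complex.ofReal_add, ← Complex.ofReal_add]
    congr 1
    linarith
  · intro n
    change ‖((u n : ℝ) : ℂ)‖ ≤ _
    rw [Complex.norm_real, Real.norm_eq_abs, abs_of_nonneg (hu n).1]
    exact (hu n).2

theorem large_coupling {lam : ℝ} (hlam : 2 * Real.exp 7 ≤ lam) {H : L2Z →L[ℂ] L2Z}
    (hH : IsSchrodinger (fun n => lam * -w n) H) : SpecLabel.pp ∈ spectralType H := by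
  obtain ⟨E, φ, hφ0, hφ, -⟩ := eigenvector hlam hH
  have hsa := isSelfAdjoint_of (abs_pot lam) hH
  refine ⟨φ, ⟨ENNReal.ofReal (‖φ‖ ^ 2) • Measure.dirac E, ⟨?_, fun f hf => ?_⟩, {E},
    Set.countable_singleton E, ?_⟩, hφ0⟩
  · constructor
    simp
  · rw [inner_cfc hsa hφ0 hφ f hf, integral_smul_measure, integral_dirac,
      ENNReal.toReal_ofReal (by positivity), smul_eq_mul]
  · simp

/-- **Answer to Q1 (yes).** There is a limit-periodic potential `V` such that the pure point part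
of `Δ + λ V` vanishes for all `0 < λ ≤ 1`, while `Δ + λ V` has an eigenfunction with
`|φ(n)| ≤ 2^{-|n|}` for all `λ ≥ 2 e⁷`. In particular there are `λ₁, λ₂ > 0` for which
`Δ + λ₁ V` and `Δ + λ₂ V` have different spectral types. -/
theorem result : ∃ V : ℤ → ℝ, IsLimitPeriodic V ∧
    (∀ (lam : ℝ) (H : L2Z →L[ℂ] L2Z), 0 < lam → lam ≤ 1 →
      IsSchrodinger (fun n => lam * V n) H → SpecLabel.pp ∉ spectralType H) ∧
    (∀ (lam : ℝ) (H : L2Z →L[ℂ] L2Z), 2 * Real.exp 7 ≤ lam →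
      IsSchrodinger (fun n => lam * V n) H → SpecLabel.pp ∈ spectralType H ∧
        ∃ (E : ℝ) (φ : L2Z), φ ≠ 0 ∧ H φ = (E : ℂ) • φ ∧
          ∀ n : ℤ, ‖φ n‖ ≤ (1 / 2) ^ n.natAbs) ∧
    ∃ (lam₁ lam₂ : ℝ) (H₁ H₂ : L2Z →L[ℂ] L2Z), 0 < lam₁ ∧ 0 < lam₂ ∧
      IsSchrodinger (fun n => lam₁ * V n) H₁ ∧ IsSelfAdjoint H₁ ∧
      IsSchrodinger (fun n => lam₂ * V n) H₂ ∧ IsSelfAdjoint H₂ ∧
      spectralType H₁ ≠ spectralType H₂ := by
  refine ⟨fun n => -w n, limitPeriodic, fun lam H h0 h1 hH => small_coupling h0 h1 hH,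
    fun lam H hlam hH => ⟨large_coupling hlam hH, eigenvector hlam hH⟩, ?_⟩
  obtain ⟨H₁, h1, h1s⟩ := exists_H (fun n => 1 * -w n) (abs_pot 1)
  obtain ⟨H₂, h2, h2s⟩ := exists_H (fun n => (2 * Real.exp 7) * -w n) (abs_pot (2 * Real.exp 7))
  have h1' : IsSchrodinger (fun n => 1 * -w n) H₁ := fun ψ n => by rw [h1]; ring
  have h2' : IsSchrodinger (fun n => (2 * Real.exp 7) * -w n) H₂ := fun ψ n => by rw [h2]; ring
  refine ⟨1, 2 * Real.exp 7, H₁, H₂, one_pos, by positivity, h1', h1s, h2', h2s, fun he => ?_⟩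
  have h3 := large_coupling le_rfl h2'
  rw [← he] at h3
  exact small_coupling one_pos le_rfl h1' h3

end Pool.Agent.Results.MP_c5cda2_mp.CouplingTransition
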